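import Pool.Agent.H12.EH.Acnt
import Pool.Agent.H12.EH.Dya

/-!
[H80 PS CT0]  All curves, a large label of `s`.

As `ctJ` (CtJ.lean), with `acnt` (Pool/Agent/H12/EH/Acnt.lean) in place of `acnt1`: `dya1` (fibers `(v, S, lam)`,
`S lam ≤ C₁ H`), `dya2` for `g`, classes `2^k ≤ L`: a class has at most `C L^(ε') (L + √(C₁ H L))` elements.
-/

set_option autoImplicit false

namespace Pool.Agent.H80.PS

open Pool.Agent.H12.EH

theorem ct0 (A B : ℤ) (hD : 4 * A ^ 3 + 27 * B ^ 2 ≠ 0) (ε : ℝ) (hε : 0 < ε) : ∃ C : ℝ, 0 < C ∧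
    ∀ H L : ℝ, 1 ≤ H → 1 ≤ L → ∀ T : Finset (ℤ × ℤ),
    (∀ p ∈ T, IsCoprime p.1 p.2 ∧ 0 < p.2 ∧ |(p.1 : ℝ)| ≤ H ∧ (p.2 : ℝ) ≤ H ∧ Gf A B p.1 p.2 ≠ 0 ∧
      ∃ g z : ℕ, Squarefree g ∧ 0 < z ∧ Gf A B p.1 p.2 = g * z ^ 2 ∧ (g : ℝ) ≤ L) →
    (T.card : ℝ) ≤ C * (H * L) ^ ε * (L + √(H * L)) := by
  classical
  obtain ⟨ρ, hρ, hac⟩ := acnt A B hD
  obtain ⟨C1, hC1, hdya⟩ := dya1 hρ
  obtain ⟨C2, hC2, hacnt⟩ := hac (ε / 2) (by positivity)
  obtain ⟨C4, hC4, hlog⟩ := log_pow_le 3 (ε / 2) (by positivity)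
  have hC1p : 0 < C1 := by linarith
  refine ⟨C1 * 2 * C4 * C2 * (1 + √C1), by positivity, ?_⟩
  intro H Q hH hQ1 T hTT
  have hQ0 : 0 < Q := by linarith
  have hH0 : 0 < H := by linarith
  have hY1 : 1 ≤ H * Q := one_le_mul_of_one_le_of_one_le hH hQ1
  have hY0 : 0 < H * Q := by linarith
  have hHY : H ≤ H * Q := le_mul_of_one_le_right hH0.le hQ1
  have hDY : Q ≤ H * Q := le_mul_of_one_le_left hQ0.le hH
  obtain ⟨N, hN⟩ : ∃ N : ℕ, N = ⌊Q⌋₊ := ⟨_, rfl⟩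
  have hNQ : (N : ℝ) ≤ Q := by
    rw [hN]
    exact Nat.floor_le hQ0.le
  obtain ⟨M, hM⟩ : ∃ M : ℝ, M = C2 * Q ^ (ε / 2) * (Q + √(C1 * H * Q)) := ⟨_, rfl⟩
  have hM0 : 0 ≤ M := by rw [hM]; positivity
  have hfac : ∀ p : ℤ × ℤ, ∃ g z : ℕ, p ∈ T →
      (Squarefree g ∧ 0 < z ∧ Gf A B p.1 p.2 = g * z ^ 2 ∧ (g : ℝ) ≤ Q) := by
    intro p
    by_cases hp : p ∈ T
    · obtain ⟨-, -, -, -, -, g, z, h⟩ := hTT p hp
      exact ⟨g, z, fun _ => h⟩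
    · exact ⟨0, 0, fun h => absurd h hp⟩
  choose g z hay using hfac
  have hg1 : ∀ p ∈ T, 1 ≤ g p ∧ g p ≤ N := by
    intro p hp
    obtain ⟨h1, h2, h3, h4⟩ := hay p hp
    refine ⟨Nat.one_le_iff_ne_zero.mpr h1.ne_zero, ?_⟩
    rw [hN]
    exact Nat.le_floor h4
  -- one fiber
  have hfib : ∀ (v : Fin 3) (S lam : ℝ), 1 ≤ S → 0 < lam → S * lam ≤ C1 * H → ∀ T' ⊆ T,
      (∀ p ∈ T', Fib ρ v S lam p.1 p.2) →
      (T'.card : ℝ) ≤ (Nat.log 2 N + 1) * M := by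
    intro v S lam hS hlam hSl T' hT' hF
    apply dya2 _ g N M hM0
    · intro p hp
      exact hg1 p (hT' hp)
    · intro k hk T'' hT'' hT2
      have hL1 : (1 : ℝ) ≤ (2 : ℝ) ^ k := one_le_pow₀ (by norm_num)
      have hLQ : (2 : ℝ) ^ k ≤ Q := by
        refine le_trans ?_ hNQ
        exact_mod_cast hk
      have := hacnt v S lam ((2 : ℝ) ^ k) (by linarith) hlam hL1 T'' ?_
      · refine this.trans ?_
        rw [hM]
        have h1 : ((2 : ℝ) ^ k) ^ (ε / 2) ≤ Q ^ (ε / 2) :=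
          Real.rpow_le_rpow (by positivity) hLQ (by positivity)
        have h2 : √(S * lam * (2 : ℝ) ^ k) ≤ √(C1 * H * Q) := by
          apply Real.sqrt_le_sqrt
          gcongr
        gcongr
      · intro p hp
        have hp1 := hT'' hp
        have hpT := hT' hp1
        obtain ⟨h1, h2, h3, h4⟩ := hay p hpT
        obtain ⟨o1, o2, -⟩ := hTT p hpT
        refine ⟨o1, o2, hF p hp1, g p, z p, h1, h2, ?_, ?_, h3⟩
        · have := (hT2 p hp).1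
          exact_mod_cast this
        · have := (hT2 p hp).2
          exact_mod_cast this
  have hne : ∀ p ∈ T, 0 < p.2 ∧ |(p.1 : ℝ)| ≤ H ∧ (p.2 : ℝ) ≤ H ∧ Gf A B p.1 p.2 ≠ 0 := by
    intro p hp
    obtain ⟨h1, h2, h3, h4, h5, -⟩ := hTT p hp
    exact ⟨h2, h3, h4, h5⟩
  have hmain := hdya H hH T ((Nat.log 2 N + 1) * M) (by positivity) hne hfib
  refine hmain.trans ?_
  -- estimates
  have hlY : 0 ≤ Real.log (H * Q) := Real.log_nonneg hY1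
  have hlH : 0 ≤ Real.log H := Real.log_nonneg hH
  have g1 : Real.log H + 1 ≤ Real.log (H * Q) + 1 := by
    have := Real.log_le_log hH0 hHY
    linarith
  have g1' : 0 ≤ Real.log H + 1 := by linarith
  have g2 : ((Nat.log 2 N : ℕ) : ℝ) + 1 ≤ 2 * (Real.log (H * Q) + 1) := by
    have hl2 : (1 : ℝ) / 2 < Real.log 2 := by
      have := Real.log_two_gt_d9
      linarith
    have hN0 : N ≠ 0 := by
      rw [hN]
      have := Nat.floor_pos.mpr hQ1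
      omega
    have e1 : 2 ^ Nat.log 2 N ≤ N := Nat.pow_log_le_self 2 hN0
    have e2 : (2 : ℝ) ^ Nat.log 2 N ≤ Q := by
      refine le_trans ?_ hNQ
      exact_mod_cast e1
    have e3 := Real.log_le_log (by positivity) e2
    rw [Real.log_pow] at e3
    have e5 : Real.log Q ≤ Real.log (H * Q) := Real.log_le_log hQ0 hDY
    have e4 : (0 : ℝ) ≤ ((Nat.log 2 N : ℕ) : ℝ) := by positivity
    have e6 : ((Nat.log 2 N : ℕ) : ℝ) ≤ 2 * Real.log Q := by nlinarith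
    linarith
  have g3 : Q ^ (ε / 2) ≤ (H * Q) ^ (ε / 2) := Real.rpow_le_rpow hQ0.le hDY (by positivity)
  have g4 : Q + √(C1 * H * Q) ≤ (1 + √C1) * (Q + √(H * Q)) := by
    have e3 : √(C1 * H * Q) = √C1 * √(H * Q) := by
      rw [mul_assoc C1 H Q, Real.sqrt_mul hC1p.le]
    rw [e3]
    have p1 : 0 ≤ √(H * Q) := by positivity
    have p2 : 0 ≤ √C1 * Q := by positivity
    nlinarith
  have g5 := hlog (H * Q) hY1
  have hlY1 : 0 ≤ Real.log (H * Q) + 1 := by linarith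
  calc C1 * (Real.log H + 1) ^ 2 * ((Nat.log 2 N + 1) * M)
      ≤ C1 * (Real.log (H * Q) + 1) ^ 2 * ((2 * (Real.log (H * Q) + 1)) * M) := by
        gcongr
    _ = C1 * 2 * (Real.log (H * Q) + 1) ^ 3 * C2 * Q ^ (ε / 2) * (Q + √(C1 * H * Q)) := by
        rw [hM]
        ring
    _ ≤ C1 * 2 * (C4 * (H * Q) ^ (ε / 2)) * C2 * (H * Q) ^ (ε / 2) * ((1 + √C1) * (Q + √(H * Q))) := by
        gcongr
    _ = C1 * 2 * C4 * C2 * (1 + √C1) * ((H * Q) ^ (ε / 2) * (H * Q) ^ (ε / 2)) * (Q + √(H * Q)) := by ring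
    _ = C1 * 2 * C4 * C2 * (1 + √C1) * (H * Q) ^ ε * (Q + √(H * Q)) := by
        rw [← Real.rpow_add hY0]
        norm_num

end Pool.Agent.H80.PS
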