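import Pool.Agent.H12.EH.Om1

/-!
[H80 PS CTJ]  One rational root, a large label of one of the two linear forms.

As `fbB` (Pool/Agent/H80/PT/FbB.lean), with `acnt1` (Pool/Agent/H12/EH/Acnt1.lean) in place of `acnt3`: `dya1` (fibers `(v, S, lam)`,
`S lam ≤ C₁ H`), `dya2` for `|a b|`, classes `2^k ≤ K L`: a class has at most `C (K L)^(ε') (K L + √(C₁ H K L))` elements.
-/

set_option autoImplicit false

namespace Pool.Agent.H80.PS

open Pool.Agent.H12.EH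

theorem ctJ {A B : ℤ} (hD : 4 * A ^ 3 + 27 * B ^ 2 ≠ 0) {ρ : Fin 3 → ℂ} (hρ : Roots A B ρ) {e : ℤ}
    (he : ρ 0 = e) (hirr : ∀ x : ℚ, x ^ 2 + e * x + (e ^ 2 + A) ≠ 0) (ε : ℝ) (hε : 0 < ε) : ∃ C : ℝ, 0 < C ∧
    ∀ (μ : Fin 2 → ℤ), μ = ![1, e] ∨ μ = ![0, -1] → ∀ H L : ℝ, 1 ≤ H → 1 ≤ L → ∀ T : Finset (ℤ × ℤ),
    (∀ p ∈ T, IsCoprime p.1 p.2 ∧ 0 < p.2 ∧ |(p.1 : ℝ)| ≤ H ∧ (p.2 : ℝ) ≤ H ∧ Gf A B p.1 p.2 ≠ 0 ∧
      ∃ a b y z : ℤ, Squarefree a ∧ Squarefree b ∧ 0 < y ∧ 0 < z ∧ μ 0 * p.1 - μ 1 * p.2 = a * y ^ 2 ∧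
        Qf A e p.1 p.2 = b * z ^ 2 ∧ |((a * b : ℤ) : ℝ)| ≤ L) →
    (T.card : ℝ) ≤ C * (H * L) ^ ε * (L + √(H * L)) := by
  classical
  obtain ⟨C1, hC1, hdya⟩ := dya1 hρ
  obtain ⟨C2, hC2, hacnt⟩ := acnt1 hD hρ he hirr (ε / 2) (by positivity)
  obtain ⟨C4, hC4, hlog⟩ := log_pow_le 3 (ε / 2) (by positivity)
  have hC1p : 0 < C1 := by linarith
  refine ⟨C1 * 2 * C4 * C2 * (1 + √C1), by positivity, ?_⟩
  intro μ hμ H Q hH hQ1 T hTT
  have hQ0 : 0 < Q := by linarith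
  have hH0 : 0 < H := by linarith
  have hY1 : 1 ≤ H * Q := one_le_mul_of_one_le_of_one_le hH hQ1
  have hY0 : 0 < H * Q := by linarith
  have hHY : H ≤ H * Q := le_mul_of_one_le_right hH0.le hQ1
  have hDY : Q ≤ H * Q := le_mul_of_one_le_left hQ0.le hH
  obtain ⟨N, hN⟩ : ∃ N : ℕ, N = ⌊Q⌋₊ := ⟨_, rfl⟩
  have hNQ : (N : ℝ) ≤ Q := by
    rw [hN]
    exact Nat.floor_le hQ0.le
  obtain ⟨M, hM⟩ : ∃ M : ℝ, M = C2 * Q ^ (ε / 2) * (Q + √(C1 * H * Q)) := ⟨_, rfl⟩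
  have hM0 : 0 ≤ M := by rw [hM]; positivity
  have hfac : ∀ p : ℤ × ℤ, ∃ a b y z : ℤ, p ∈ T →
      (Squarefree a ∧ Squarefree b ∧ 0 < y ∧ 0 < z ∧ μ 0 * p.1 - μ 1 * p.2 = a * y ^ 2 ∧
        Qf A e p.1 p.2 = b * z ^ 2 ∧ |((a * b : ℤ) : ℝ)| ≤ Q) := by
    intro p
    by_cases hp : p ∈ T
    · obtain ⟨-, -, -, -, -, a, b, y, z, h⟩ := hTT p hp
      exact ⟨a, b, y, z, fun _ => h⟩
    · exact ⟨0, 0, 0, 0, fun h => absurd h hp⟩
  choose a b y z hay using hfac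
  obtain ⟨g, hg⟩ : ∃ g : ℤ × ℤ → ℕ, ∀ p, g p = (a p * b p).natAbs := ⟨fun p => (a p * b p).natAbs, fun p => rfl⟩
  have hgR : ∀ p, ((g p : ℕ) : ℝ) = |((a p * b p : ℤ) : ℝ)| := by
    intro p
    rw [hg, Nat.cast_natAbs, Int.cast_abs]
  have hg1 : ∀ p ∈ T, 1 ≤ g p ∧ g p ≤ N := by
    intro p hp
    obtain ⟨h1, h2, h3, h4, h5, h6, h7⟩ := hay p hp
    have hg0 : g p ≠ 0 := by
      rw [hg, Int.natAbs_ne_zero]
      exact mul_ne_zero h1.ne_zero h2.ne_zero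
    refine ⟨Nat.one_le_iff_ne_zero.mpr hg0, ?_⟩
    rw [hN]
    apply Nat.le_floor
    rw [hgR]
    exact h7
  -- one fiber
  have hfib : ∀ (v : Fin 3) (S lam : ℝ), 1 ≤ S → 0 < lam → S * lam ≤ C1 * H → ∀ T' ⊆ T,
      (∀ p ∈ T', Fib ρ v S lam p.1 p.2) →
      (T'.card : ℝ) ≤ (Nat.log 2 N + 1) * M := by
    intro v S lam hS hlam hSl T' hT' hF
    apply dya2 _ g N M hM0
    · intro p hp
      exact hg1 p (hT' hp)
    · intro k hk T'' hT'' hT2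
      have hL1 : (1 : ℝ) ≤ (2 : ℝ) ^ k := one_le_pow₀ (by norm_num)
      have hLQ : (2 : ℝ) ^ k ≤ Q := by
        refine le_trans ?_ hNQ
        exact_mod_cast hk
      have := hacnt μ hμ v S lam ((2 : ℝ) ^ k) (by linarith) hlam hL1 T'' ?_
      · refine this.trans ?_
        rw [hM]
        have h1 : ((2 : ℝ) ^ k) ^ (ε / 2) ≤ Q ^ (ε / 2) :=
          Real.rpow_le_rpow (by positivity) hLQ (by positivity)
        have h2 : √(S * lam * (2 : ℝ) ^ k) ≤ √(C1 * H * Q) := by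
          apply Real.sqrt_le_sqrt
          gcongr
        gcongr
      · intro p hp
        have hp1 := hT'' hp
        have hpT := hT' hp1
        obtain ⟨h1, h2, h3, h4, h5, h6, h7⟩ := hay p hpT
        obtain ⟨o1, o2, -⟩ := hTT p hpT
        refine ⟨o1, o2, hF p hp1, a p, b p, y p, z p, h1, h2, h3, h4, h5, h6, ?_, ?_⟩
        · have := (hT2 p hp).1
          rw [← hgR]
          exact_mod_cast this
        · have := (hT2 p hp).2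
          rw [← hgR]
          exact_mod_cast this
  have hne : ∀ p ∈ T, 0 < p.2 ∧ |(p.1 : ℝ)| ≤ H ∧ (p.2 : ℝ) ≤ H ∧ Gf A B p.1 p.2 ≠ 0 := by
    intro p hp
    obtain ⟨h1, h2, h3, h4, h5, -⟩ := hTT p hp
    exact ⟨h2, h3, h4, h5⟩
  have hmain := hdya H hH T ((Nat.log 2 N + 1) * M) (by positivity) hne hfib
  refine hmain.trans ?_
  -- estimates
  have hlY : 0 ≤ Real.log (H * Q) := Real.log_nonneg hY1
  have hlH : 0 ≤ Real.log H := Real.log_nonneg hH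
  have g1 : Real.log H + 1 ≤ Real.log (H * Q) + 1 := by
    have := Real.log_le_log hH0 hHY
    linarith
  have g1' : 0 ≤ Real.log H + 1 := by linarith
  have g2 : ((Nat.log 2 N : ℕ) : ℝ) + 1 ≤ 2 * (Real.log (H * Q) + 1) := by
    have hl2 : (1 : ℝ) / 2 < Real.log 2 := by
      have := Real.log_two_gt_d9
      linarith
    have hN0 : N ≠ 0 := by
      rw [hN]
      have := Nat.floor_pos.mpr hQ1
      omega
    have e1 : 2 ^ Nat.log 2 N ≤ N := Nat.pow_log_le_self 2 hN0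
    have e2 : (2 : ℝ) ^ Nat.log 2 N ≤ Q := by
      refine le_trans ?_ hNQ
      exact_mod_cast e1
    have e3 := Real.log_le_log (by positivity) e2
    rw [Real.log_pow] at e3
    have e5 : Real.log Q ≤ Real.log (H * Q) := Real.log_le_log hQ0 hDY
    have e4 : (0 : ℝ) ≤ ((Nat.log 2 N : ℕ) : ℝ) := by positivity
    have e6 : ((Nat.log 2 N : ℕ) : ℝ) ≤ 2 * Real.log Q := by nlinarith
    linarith
  have g3 : Q ^ (ε / 2) ≤ (H * Q) ^ (ε / 2) := Real.rpow_le_rpow hQ0.le hDY (by positivity)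
  have g4 : Q + √(C1 * H * Q) ≤ (1 + √C1) * (Q + √(H * Q)) := by
    have e3 : √(C1 * H * Q) = √C1 * √(H * Q) := by
      rw [mul_assoc C1 H Q, Real.sqrt_mul hC1p.le]
    rw [e3]
    have p1 : 0 ≤ √(H * Q) := by positivity
    have p2 : 0 ≤ √C1 * Q := by positivity
    nlinarith
  have g5 := hlog (H * Q) hY1
  have hlY1 : 0 ≤ Real.log (H * Q) + 1 := by linarith
  calc C1 * (Real.log H + 1) ^ 2 * ((Nat.log 2 N + 1) * M)
      ≤ C1 * (Real.log (H * Q) + 1) ^ 2 * ((2 * (Real.log (H * Q) + 1)) * M) := by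
        gcongr
    _ = C1 * 2 * (Real.log (H * Q) + 1) ^ 3 * C2 * Q ^ (ε / 2) * (Q + √(C1 * H * Q)) := by
        rw [hM]
        ring
    _ ≤ C1 * 2 * (C4 * (H * Q) ^ (ε / 2)) * C2 * (H * Q) ^ (ε / 2) * ((1 + √C1) * (Q + √(H * Q))) := by
        gcongr
    _ = C1 * 2 * C4 * C2 * (1 + √C1) * ((H * Q) ^ (ε / 2) * (H * Q) ^ (ε / 2)) * (Q + √(H * Q)) := by ring
    _ = C1 * 2 * C4 * C2 * (1 + √C1) * (H * Q) ^ ε * (Q + √(H * Q)) := by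
        rw [← Real.rpow_add hY0]
        norm_num

end Pool.Agent.H80.PS
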