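import Pool.Agent.H12.EH.Om1

/-!
[H80 PS CTT]  One rational root, a large label of the quadratic form.

As `om1_large` and `om1` (Pool/Agent/H12/EH/Om1.lean): `dya1` (fibers `(v, S, lam)`; `S lam ≤ C₁ H` is not even needed), `dya2` for `|a_0|`, `|a_1|`
and `y_2`, classes `A₀, A₁, Z` (powers of 2), with `A₀ A₁ G ≤ K X` and `G Z² ≤ Q H²` (`om1_qf_up`), and `acnta`:
`C Z^(ε') (A₀ A₁ Z + √(A₀ A₁ G)) ≤ C Z^(ε') (K √Q X H / G^(3/2) + √(K X))`.  All numbers are at most `C (H X)`, so the logarithms and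
`Z^(ε')` are at most `C (H X)^ε` (`log_pow_le`).
-/

set_option autoImplicit false

namespace Pool.Agent.H80.PS

open Pool.Agent.H12.EH

/-- one class of the parameters `A₀, A₁, Z` -/
private theorem ctT_class {A B : ℤ} (hD : 4 * A ^ 3 + 27 * B ^ 2 ≠ 0) {ρ : Fin 3 → ℂ} (hρ : Roots A B ρ) {e : ℤ}
    (he : ρ 0 = e) {K Q : ℝ} (hK : 1 ≤ K) (hQ : 1 ≤ Q) (ε : ℝ) (hε : 0 < ε) :
    ∃ C : ℝ, 0 < C ∧ ∀ (H X : ℝ), 1 ≤ H → 1 ≤ X →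
    ∀ (v : Fin 3) (S lam : ℝ), 0 < S → 0 < lam →
    ∀ (A₀ A₁ G Z : ℝ), 1 ≤ A₀ → 1 ≤ A₁ → 1 ≤ G → 1 ≤ Z → A₀ * A₁ * G ≤ K * X →
      G * Z ^ 2 ≤ Q * H ^ 2 →
    ∀ (T : Finset (ℤ × ℤ)) (a y : ℤ × ℤ → Fin 3 → ℤ),
      (∀ p ∈ T, IsCoprime p.1 p.2 ∧ 0 < p.2 ∧ (∀ i, 0 < y p i) ∧ p.2 = a p 0 * y p 0 ^ 2 ∧
        p.1 - e * p.2 = a p 1 * y p 1 ^ 2 ∧ Qf A e p.1 p.2 = a p 2 * y p 2 ^ 2 ∧
        Fib ρ v S lam p.1 p.2 ∧
        A₀ ≤ |(a p 0 : ℝ)| ∧ |(a p 0 : ℝ)| ≤ 2 * A₀ ∧ A₁ ≤ |(a p 1 : ℝ)| ∧ |(a p 1 : ℝ)| ≤ 2 * A₁ ∧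
        G ≤ |(a p 2 : ℝ)| ∧ |(a p 2 : ℝ)| ≤ 2 * G ∧ Z ≤ y p 2 ∧ (y p 2 : ℝ) ≤ 2 * Z) →
      (T.card : ℝ) ≤ C * (H * X) ^ ε * (X * H / G ^ (3 / 2 : ℝ) + √X) := by
  obtain ⟨Cb, hCb, hacnta⟩ := acnta hD hρ he ε hε
  have hKp : 0 < K := by linarith
  have hQp : 0 < Q := by linarith
  refine ⟨Cb * Q ^ ε * (K * Q), by positivity, ?_⟩
  intro H X hH hX v S lam hS hlam A₀ A₁ G Z hA₀ hA₁ hG hZ hAG hGZ T a y hT
  have hH0 : 0 < H := by linarith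
  have hX0 : 0 < X := by linarith
  have hG0 : 0 < G := by linarith
  have hkey := hacnta v S lam A₀ A₁ G Z hS hlam hA₀ hA₁ hG hZ T (by
    intro p hp
    obtain ⟨g1, g2, g3, g4, g5, g6, hf, h1, h2, h3, h4, h5, h6, h7, h8⟩ := hT p hp
    exact ⟨g1, g2, hf, a p, y p, g3, g4, g5, g6, h1, h2, h3, h4, h5, h6, h7, h8⟩)
  refine hkey.trans ?_
  have hZle : Z ≤ Q * (H * X) := by
    have h1 : Z ^ 2 ≤ (Q * H) ^ 2 := by
      calc Z ^ 2 = 1 * Z ^ 2 := by ring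
        _ ≤ G * Z ^ 2 := by gcongr
        _ ≤ Q * H ^ 2 := hGZ
        _ ≤ Q ^ 2 * H ^ 2 := by
            have : Q ≤ Q ^ 2 := by nlinarith
            gcongr
        _ = (Q * H) ^ 2 := by ring
    have h2 : Z ≤ Q * H := (abs_le_of_sq_le_sq' h1 (by positivity)).2
    refine h2.trans ?_
    gcongr
    exact le_mul_of_one_le_right hH0.le hX
  have e1 : Z ^ ε ≤ Q ^ ε * (H * X) ^ ε := by
    rw [← Real.mul_rpow (by positivity) (by positivity)]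
    exact Real.rpow_le_rpow (by positivity) hZle hε.le
  have hGp : 0 < G ^ (3 / 2 : ℝ) := Real.rpow_pos_of_pos hG0 _
  have hG3 : (G ^ (3 / 2 : ℝ)) ^ 2 = G ^ 3 := by
    rw [← Real.rpow_natCast, ← Real.rpow_mul hG0.le, ← Real.rpow_natCast]
    norm_num
  have e2 : A₀ * A₁ * Z ≤ K * Q * (X * H / G ^ (3 / 2 : ℝ)) := by
    have h1 : (A₀ * A₁ * Z * G ^ (3 / 2 : ℝ)) ^ 2 ≤ (K * Q * (X * H)) ^ 2 := by
      calc (A₀ * A₁ * Z * G ^ (3 / 2 : ℝ)) ^ 2 = (A₀ * A₁ * Z) ^ 2 * (G ^ (3 / 2 : ℝ)) ^ 2 := by ring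
        _ = (A₀ * A₁ * G) ^ 2 * (G * Z ^ 2) := by rw [hG3]; ring
        _ ≤ (K * X) ^ 2 * (Q * H ^ 2) := by gcongr
        _ = K ^ 2 * Q * (X ^ 2 * H ^ 2) := by ring
        _ ≤ K ^ 2 * Q ^ 2 * (X ^ 2 * H ^ 2) := by
            have : Q ≤ Q ^ 2 := by nlinarith
            gcongr
        _ = (K * Q * (X * H)) ^ 2 := by ring
    have h2 : A₀ * A₁ * Z * G ^ (3 / 2 : ℝ) ≤ K * Q * (X * H) :=
      (abs_le_of_sq_le_sq' h1 (by positivity)).2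
    rw [← mul_div_assoc, le_div_iff₀ hGp]
    exact h2
  have e3 : √(A₀ * A₁ * G) ≤ K * Q * √X := by
    calc √(A₀ * A₁ * G) ≤ √(K * X) := Real.sqrt_le_sqrt hAG
      _ = √K * √X := Real.sqrt_mul hKp.le _
      _ ≤ (K * Q) * √X := by
          gcongr
          refine Real.sqrt_le_iff.2 ⟨by positivity, ?_⟩
          have h1 : 1 ≤ K * Q ^ 2 := by nlinarith [one_le_pow₀ hQ (n := 2)]
          nlinarith
  calc Cb * Z ^ ε * (A₀ * A₁ * Z + √(A₀ * A₁ * G))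
      ≤ Cb * (Q ^ ε * (H * X) ^ ε) * (K * Q * (X * H / G ^ (3 / 2 : ℝ)) + K * Q * √X) := by gcongr
    _ = _ := by ring

theorem ctT {A B : ℤ} (hD : 4 * A ^ 3 + 27 * B ^ 2 ≠ 0) {ρ : Fin 3 → ℂ} (hρ : Roots A B ρ) {e : ℤ}
    (he : ρ 0 = e) (K : ℝ) (hK : 1 ≤ K) (ε : ℝ) (hε : 0 < ε) : ∃ C : ℝ, 0 < C ∧
    ∀ H X G : ℝ, 1 ≤ H → 1 ≤ X → 1 ≤ G → ∀ T : Finset (ℤ × ℤ),
    (∀ p ∈ T, IsCoprime p.1 p.2 ∧ 0 < p.2 ∧ |(p.1 : ℝ)| ≤ H ∧ (p.2 : ℝ) ≤ H ∧ Gf A B p.1 p.2 ≠ 0 ∧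
      ∃ a y : Fin 3 → ℤ, (∀ i, Squarefree (a i)) ∧ (∀ i, 0 < y i) ∧ p.2 = a 0 * y 0 ^ 2 ∧
        p.1 - e * p.2 = a 1 * y 1 ^ 2 ∧ Qf A e p.1 p.2 = a 2 * y 2 ^ 2 ∧
        |((a 0 * a 1 * a 2 : ℤ) : ℝ)| ≤ K * X ∧ G ≤ |(a 2 : ℝ)| ∧ |(a 2 : ℝ)| ≤ 2 * G) →
    (T.card : ℝ) ≤ C * (H * X) ^ ε * (X * H / G ^ (3 / 2 : ℝ) + √X) := by
  classical
  obtain ⟨C₁, hC₁, hdya⟩ := dya1 hρ
  obtain ⟨Q, hQ, hQf⟩ := om1_qf_up A e
  set ε' : ℝ := ε / 2 with hε'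
  have hε'0 : 0 < ε' := by rw [hε']; positivity
  obtain ⟨C, hC, hcl⟩ := ctT_class hD hρ he hK hQ ε' hε'0
  obtain ⟨CL, hCL, hlog⟩ := log_pow_le 5 ε' hε'0
  have hKp : 0 < K := by linarith
  have hQp : 0 < Q := by linarith
  set C₂ : ℝ := K + Q with hC₂
  have hC₂1 : 1 ≤ C₂ := by rw [hC₂]; linarith
  set C₃ : ℝ := 2 * Real.log C₂ + 5 with hC₃
  have hlC₂ := Real.log_nonneg hC₂1
  have hC₃1 : 1 ≤ C₃ := by
    rw [hC₃]
    linarith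
  refine ⟨C₁ * C₃ ^ 3 * C * CL, by positivity, ?_⟩
  intro H X G hH hX hG T hT
  have hH0 : 0 < H := by linarith
  have hX0 : 0 < X := by linarith
  have hG0 : 0 < G := by linarith
  set Y : ℝ := H * X with hY
  have hY1 : 1 ≤ Y := one_le_mul_of_one_le_of_one_le hH hX
  have hY0 : 0 < Y := by linarith
  have hHY : H ≤ Y := le_mul_of_one_le_right hH0.le hX
  have hXY : X ≤ Y := le_mul_of_one_le_left hX0.le hH
  set N : ℕ := ⌊C₂ * Y⌋₊ with hN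
  have hleN : ∀ n : ℕ, (n : ℝ) ≤ C₂ * Y → n ≤ N := fun n hn => Nat.le_floor hn
  have hfac : ∀ p : ℤ × ℤ, ∃ a y : Fin 3 → ℤ, p ∈ T →
      ((∀ i, Squarefree (a i)) ∧ (∀ i, 0 < y i) ∧ p.2 = a 0 * y 0 ^ 2 ∧
        p.1 - e * p.2 = a 1 * y 1 ^ 2 ∧ Qf A e p.1 p.2 = a 2 * y 2 ^ 2 ∧
        |((a 0 * a 1 * a 2 : ℤ) : ℝ)| ≤ K * X ∧ G ≤ |(a 2 : ℝ)| ∧ |(a 2 : ℝ)| ≤ 2 * G) := by
    intro p
    by_cases hp : p ∈ T
    · obtain ⟨-, -, -, -, -, a, y, h⟩ := hT p hp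
      exact ⟨a, y, fun _ => h⟩
    · exact ⟨0, 0, fun h => absurd h hp⟩
  choose a y hay using hfac
  have hnat : ∀ n : ℤ, ((n.natAbs : ℕ) : ℝ) = |(n : ℝ)| := by
    intro n
    rw [Nat.cast_natAbs, Int.cast_abs]
  have hone : ∀ p ∈ T, ∀ i, (1 : ℝ) ≤ |(a p i : ℝ)| := fun p hp i => om1_abs_ge ((hay p hp).1 i)
  have hone' : ∀ p ∈ T, ∀ i, 1 ≤ (a p i).natAbs := by
    intro p hp i
    have := hone p hp i
    rw [← hnat] at this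
    exact_mod_cast this
  have haN : ∀ p ∈ T, ∀ i, (a p i).natAbs ≤ N := by
    intro p hp i
    apply hleN
    rw [hnat]
    have h0 := hone p hp 0
    have h1 := hone p hp 1
    have h2 := hone p hp 2
    have h3 := (hay p hp).2.2.2.2.2.1
    rw [Int.cast_mul, Int.cast_mul, abs_mul, abs_mul] at h3
    have h4 : |(a p i : ℝ)| ≤ |(a p 0 : ℝ)| * |(a p 1 : ℝ)| * |(a p 2 : ℝ)| := by
      have h01 : (1 : ℝ) ≤ |(a p 0 : ℝ)| * |(a p 1 : ℝ)| := by nlinarith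
      fin_cases i
      · simp only [Fin.zero_eta]
        have : |(a p 0 : ℝ)| ≤ |(a p 0 : ℝ)| * |(a p 1 : ℝ)| := by nlinarith
        nlinarith
      · simp only [Fin.mk_one]
        have : |(a p 1 : ℝ)| ≤ |(a p 0 : ℝ)| * |(a p 1 : ℝ)| := by nlinarith
        nlinarith
      · simp only [Fin.reduceFinMk]
        nlinarith
    have h5 : K * X ≤ K * Y := by gcongr
    have h6 : K * Y ≤ C₂ * Y := by
      rw [hC₂]
      nlinarith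
    linarith
  have hqabs : ∀ p ∈ T, |(a p 2 : ℝ)| * |(y p 2 : ℝ)| ^ 2 ≤ Q * H ^ 2 := by
    intro p hp
    obtain ⟨-, g2, g3, g4, -⟩ := hT p hp
    have hq := hQf H p.1 p.2 g3 g2 g4
    rw [(hay p hp).2.2.2.2.1, Int.cast_mul, Int.cast_pow, abs_mul, abs_pow] at hq
    exact hq
  have hyN : ∀ p ∈ T, 1 ≤ (y p 2).natAbs ∧ (y p 2).natAbs ≤ N := by
    intro p hp
    have hy : 0 < y p 2 := (hay p hp).2.1 2
    constructor
    · omega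
    · apply hleN
      rw [hnat]
      have hq := hqabs p hp
      have h2 := hone p hp 2
      have h3 : |(y p 2 : ℝ)| ^ 2 ≤ (Q * H) ^ 2 := by
        calc |(y p 2 : ℝ)| ^ 2 = 1 * |(y p 2 : ℝ)| ^ 2 := by ring
          _ ≤ |(a p 2 : ℝ)| * |(y p 2 : ℝ)| ^ 2 := by gcongr
          _ ≤ Q * H ^ 2 := hq
          _ ≤ Q ^ 2 * H ^ 2 := by
              have : Q ≤ Q ^ 2 := by nlinarith
              gcongr
          _ = (Q * H) ^ 2 := by ring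
      have h4 : |(y p 2 : ℝ)| ≤ Q * H := (abs_le_of_sq_le_sq' h3 (by positivity)).2
      have h5 : Q * H ≤ Q * Y := by gcongr
      have h6 : Q * Y ≤ C₂ * Y := by
        rw [hC₂]
        nlinarith
      linarith
  set Nn : ℕ := N + 1 with hNn
  set W : ℝ := X * H / G ^ (3 / 2 : ℝ) + √X with hW
  have hW0 : 0 ≤ W := by
    rw [hW]
    have : 0 < G ^ (3 / 2 : ℝ) := Real.rpow_pos_of_pos hG0 _
    positivity
  set M₀ : ℝ := C * Y ^ ε' * W with hM₀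
  have hM₀0 : 0 ≤ M₀ := by
    rw [hM₀]
    positivity
  set Lg : ℝ := (Nat.log 2 Nn : ℝ) + 1 with hLg
  have hLg0 : 0 ≤ Lg := by rw [hLg]; positivity
  have haN' : ∀ p ∈ T, ∀ i, 1 ≤ (a p i).natAbs ∧ (a p i).natAbs ≤ Nn :=
    fun p hp i => ⟨hone' p hp i, (haN p hp i).trans (Nat.le_succ _)⟩
  have hyN' : ∀ p ∈ T, 1 ≤ (y p 2).natAbs ∧ (y p 2).natAbs ≤ Nn :=
    fun p hp => ⟨(hyN p hp).1, (hyN p hp).2.trans (Nat.le_succ _)⟩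
  have hmain := hdya H hH T (Lg * (Lg * (Lg * M₀))) (by positivity)
    (fun p hp => ⟨(hT p hp).2.1, (hT p hp).2.2.1, (hT p hp).2.2.2.1, (hT p hp).2.2.2.2.1⟩)
    (by
      intro v S lam hS hlam hSl T₁ hT₁ hF₁
      have hS0 : 0 < S := by linarith
      refine dya2 T₁ (fun p => (a p 0).natAbs) Nn _ (by positivity) (fun p hp => haN' p (hT₁ hp) 0) ?_
      intro k₀ _ T₂ hT₂ h₀
      refine dya2 T₂ (fun p => (a p 1).natAbs) Nn _ (by positivity)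
        (fun p hp => haN' p (hT₁ (hT₂ hp)) 1) ?_
      intro k₁ _ T₃ hT₃ h₁
      refine dya2 T₃ (fun p => (y p 2).natAbs) Nn _ (by positivity)
        (fun p hp => hyN' p (hT₁ (hT₂ (hT₃ hp)))) ?_
      intro k₃ _ T₄ hT₄ h₃
      have hsub : ∀ p ∈ T₄, p ∈ T := fun p hp => hT₁ (hT₂ (hT₃ (hT₄ hp)))
      rcases T₄.eq_empty_or_nonempty with rfl | ⟨p₀, hp₀⟩
      · simp only [Finset.card_empty, Nat.cast_zero]
        exact hM₀0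
      have hr0 : ∀ p ∈ T₄, (2 : ℝ) ^ k₀ ≤ |(a p 0 : ℝ)| ∧ |(a p 0 : ℝ)| ≤ 2 * 2 ^ k₀ := by
        intro p hp
        rw [← hnat]
        exact ⟨by exact_mod_cast (h₀ p (hT₃ (hT₄ hp))).1, by exact_mod_cast (h₀ p (hT₃ (hT₄ hp))).2⟩
      have hr1 : ∀ p ∈ T₄, (2 : ℝ) ^ k₁ ≤ |(a p 1 : ℝ)| ∧ |(a p 1 : ℝ)| ≤ 2 * 2 ^ k₁ := by
        intro p hp
        rw [← hnat]
        exact ⟨by exact_mod_cast (h₁ p (hT₄ hp)).1, by exact_mod_cast (h₁ p (hT₄ hp)).2⟩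
      have hr3 : ∀ p ∈ T₄, (2 : ℝ) ^ k₃ ≤ (y p 2 : ℝ) ∧ (y p 2 : ℝ) ≤ 2 * 2 ^ k₃ := by
        intro p hp
        have hy : 0 < y p 2 := (hay p (hsub p hp)).2.1 2
        have : |(y p 2 : ℝ)| = (y p 2 : ℝ) := abs_of_pos (by exact_mod_cast hy)
        rw [← this, ← hnat]
        exact ⟨by exact_mod_cast (h₃ p hp).1, by exact_mod_cast (h₃ p hp).2⟩
      have hA₀ : (1 : ℝ) ≤ 2 ^ k₀ := one_le_pow₀ (by norm_num)
      have hA₁ : (1 : ℝ) ≤ 2 ^ k₁ := one_le_pow₀ (by norm_num)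
      have hZ : (1 : ℝ) ≤ 2 ^ k₃ := one_le_pow₀ (by norm_num)
      have hAG : (2 : ℝ) ^ k₀ * 2 ^ k₁ * G ≤ K * X := by
        refine le_trans ?_ (hay p₀ (hsub p₀ hp₀)).2.2.2.2.2.1
        rw [Int.cast_mul, Int.cast_mul, abs_mul, abs_mul]
        have g0 := (hr0 p₀ hp₀).1
        have g1 := (hr1 p₀ hp₀).1
        have g2 := (hay p₀ (hsub p₀ hp₀)).2.2.2.2.2.2.1
        gcongr
      have hGZ : G * (2 ^ k₃) ^ 2 ≤ Q * H ^ 2 := by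
        refine le_trans ?_ (hqabs p₀ (hsub p₀ hp₀))
        have g2 := (hay p₀ (hsub p₀ hp₀)).2.2.2.2.2.2.1
        have g3 : (2 : ℝ) ^ k₃ ≤ |(y p₀ 2 : ℝ)| := (hr3 p₀ hp₀).1.trans (le_abs_self _)
        gcongr
      refine hcl H X hH hX v S lam hS0 hlam (2 ^ k₀) (2 ^ k₁) G (2 ^ k₃) hA₀ hA₁ hG hZ hAG hGZ T₄ a y ?_
      intro p hp
      obtain ⟨c1, c2, c3, c4, c5, c6, c7, c8⟩ := hay p (hsub p hp)
      obtain ⟨d1, d2, -⟩ := hT p (hsub p hp)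
      exact ⟨d1, d2, c2, c3, c4, c5, hF₁ p (hT₂ (hT₃ (hT₄ hp))), (hr0 p hp).1, (hr0 p hp).2, (hr1 p hp).1,
        (hr1 p hp).2, c7, c8, (hr3 p hp).1, (hr3 p hp).2⟩)
  refine hmain.trans ?_
  have hlY : 0 ≤ Real.log Y := Real.log_nonneg hY1
  have hlH : 0 ≤ Real.log H := Real.log_nonneg hH
  have hlHY : Real.log H + 1 ≤ Real.log Y + 1 := by
    have h1 : Real.log H ≤ Real.log Y := Real.log_le_log hH0 hHY
    linarith
  have hLgY : Lg ≤ C₃ * (Real.log Y + 1) := by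
    have h1 : (Nn : ℝ) ≤ 2 * (C₂ * Y) := by
      rw [hNn, hN]
      push_cast
      have h2 := Nat.floor_le (a := C₂ * Y) (by positivity)
      have h3 : 1 ≤ C₂ * Y := one_le_mul_of_one_le_of_one_le hC₂1 hY1
      linarith
    have h2 : (Nat.log 2 Nn : ℝ) ≤ Real.logb 2 Nn := by
      have := Real.natLog_le_logb Nn 2
      exact_mod_cast this
    have h3 : Real.logb 2 Nn ≤ Real.logb 2 (2 * (C₂ * Y)) := by
      apply Real.logb_le_logb_of_le (by norm_num) _ h1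
      rw [hNn]
      push_cast
      positivity
    have h4 : Real.logb 2 (2 * (C₂ * Y)) = 1 + (Real.log C₂ + Real.log Y) / Real.log 2 := by
      unfold Real.logb
      have : C₂ ≠ 0 := by linarith
      rw [Real.log_mul (by norm_num) (by positivity), Real.log_mul (by positivity) (by positivity)]
      have hl2 : Real.log 2 ≠ 0 := (Real.log_pos (by norm_num)).ne'
      field_simp
    have hl2 : (1 / 2 : ℝ) ≤ Real.log 2 := by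
      have := Real.log_two_gt_d9
      linarith
    have h5 : (Real.log C₂ + Real.log Y) / Real.log 2 ≤ 2 * (Real.log C₂ + Real.log Y) := by
      rw [div_le_iff₀ (by linarith)]
      nlinarith
    have h7 := mul_nonneg hlC₂ hlY
    have h8 : (2 * Real.log C₂ + 5) * (Real.log Y + 1) =
        2 * (Real.log C₂ * Real.log Y) + 2 * Real.log C₂ + 5 * Real.log Y + 5 := by ring
    rw [hLg, hC₃, h8]
    linarith
  have hlog5 := hlog Y hY1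
  have hYY : Y ^ ε = Y ^ ε' * Y ^ ε' := by
    rw [← Real.rpow_add hY0]
    congr 1
    rw [hε']
    ring
  calc C₁ * (Real.log H + 1) ^ 2 * (Lg * (Lg * (Lg * M₀)))
      = C₁ * (Real.log H + 1) ^ 2 * (Lg ^ 3 * M₀) := by ring
    _ ≤ C₁ * (Real.log Y + 1) ^ 2 * ((C₃ * (Real.log Y + 1)) ^ 3 * M₀) := by gcongr
    _ = C₁ * C₃ ^ 3 * (Real.log Y + 1) ^ 5 * M₀ := by ring
    _ ≤ C₁ * C₃ ^ 3 * (CL * Y ^ ε') * M₀ := by gcongr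
    _ = C₁ * C₃ ^ 3 * C * CL * Y ^ ε * W := by
        rw [hM₀, hYY]
        ring

end Pool.Agent.H80.PS
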