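import Pool.Agent.H80.PT.Defs
import Pool.Agent.H12.EH.Fac
import Pool.Agent.H12.EH.Red

/-!
[H80 PS LBL]  One rational root: the label of a pair, with a factorization of `d` in three factors.

As `fac1` (Pool/Agent/H12/EH/Fac.lean; `Fac_core` with `n = 3`, `Δ = |3 e² + A|`) and as `lblF` (H80/PT/LblF.lean): `s (r - e s) Qf = d w²`
(`gf_qf`), `sqf_dec` for the three factors, `∏ |a_i| ≤ Δ³ d`.  Every prime `p ∣ d` divides some `a_i` (as `lbl_dvd` in H80/PT/Lbl.lean, `n = 3`);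
choose `j p` and put `b i = ∏ p ∈ d.primeFactors with j p = i, p`.
-/

set_option autoImplicit false

namespace Pool.Agent.H80.PS

open Pool.Agent.H12.EH Pool.Agent.H80.PT

private theorem lbl1_abs {n : ℕ} (a : Fin n → ℤ) : |((∏ i, a i : ℤ) : ℝ)| = ((∏ i, (a i).natAbs : ℕ) : ℝ) := by
  push_cast
  rw [Finset.abs_prod]
  apply Finset.prod_congr rfl
  intro i _
  rw [Nat.cast_natAbs]
  push_cast
  rfl

/-- the prime `q` divides one of the `a_i` -/
private theorem lbl1_dvd {n : ℕ} {F a y : Fin n → ℤ} {d : ℕ} {w : ℤ} (hF : ∀ i, F i = a i * y i ^ 2)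
    (ha : ∀ i, Squarefree (a i)) (hy : ∀ i, y i ≠ 0) (hw : w ≠ 0) (hd : Squarefree d)
    (hp : ∏ i, F i = d * w ^ 2) {q : ℕ} (hq : q.Prime) (hqd : q ∣ d) : ∃ i, (q : ℤ) ∣ a i := by
  have hd0 : d ≠ 0 := hd.ne_zero
  have ha0 : ∀ i, (a i).natAbs ≠ 0 := fun i => by
    rw [Int.natAbs_ne_zero]
    exact (ha i).ne_zero
  have hP0 : ∏ i, (a i).natAbs ≠ 0 := Finset.prod_ne_zero_iff.mpr (fun i _ => ha0 i)
  have hQ0 : ∏ i, (y i).natAbs ≠ 0 := Finset.prod_ne_zero_iff.mpr (fun i _ => by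
    rw [Int.natAbs_ne_zero]
    exact hy i)
  have hw0 : w.natAbs ≠ 0 := by rwa [Int.natAbs_ne_zero]
  have heq : (∏ i, (a i).natAbs) * (∏ i, (y i).natAbs) ^ 2 = d * w.natAbs ^ 2 := by
    have h1 := congrArg Int.natAbs hp
    rw [Int.natAbs_mul, Int.natAbs_pow, Int.natAbs_natCast] at h1
    rw [← h1, Finset.prod_congr rfl (fun i _ => hF i), Finset.prod_mul_distrib, Finset.prod_pow,
      Int.natAbs_mul, Int.natAbs_pow]
    congr 1
    · exact (map_prod Int.natAbsHom a Finset.univ).symm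
    · congr 1
      exact (map_prod Int.natAbsHom y Finset.univ).symm
  have h2 := congrArg (fun m => m.factorization q) heq
  rw [Nat.factorization_mul hP0 (pow_ne_zero 2 hQ0), Nat.factorization_mul hd0 (pow_ne_zero 2 hw0),
    Nat.factorization_pow, Nat.factorization_pow] at h2
  simp only [Finsupp.coe_add, Pi.add_apply, Finsupp.coe_smul, Pi.smul_apply, smul_eq_mul] at h2
  have h3 : d.factorization q = 1 := by
    have h4 := hd.natFactorization_le_one q
    have h5 : 1 ≤ d.factorization q := (hq.dvd_iff_one_le_factorization hd0).mp hqd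
    omega
  have h6 : (∏ i, (a i).natAbs).factorization q ≠ 0 := by omega
  have h7 : q ∣ ∏ i, (a i).natAbs := Nat.dvd_of_factorization_pos h6
  obtain ⟨i, -, hi⟩ := (Prime.dvd_finsetProd_iff hq.prime _).1 h7
  exact ⟨i, Int.natCast_dvd.mpr hi⟩

theorem lbl1 {A B : ℤ} (hD : 4 * A ^ 3 + 27 * B ^ 2 ≠ 0) {e : ℤ} (he : e ^ 3 + A * e + B = 0) : ∃ K : ℝ, 1 ≤ K ∧
    ∀ (H : ℝ) (d : ℕ) (r s : ℤ), Squarefree d → Tw A B H d r s →
      ∃ (a y : Fin 3 → ℤ) (b : Fin 3 → ℕ), (∀ i, Squarefree (a i)) ∧ (∀ i, 0 < y i) ∧ s = a 0 * y 0 ^ 2 ∧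
        r - e * s = a 1 * y 1 ^ 2 ∧ Qf A e r s = a 2 * y 2 ^ 2 ∧ |((a 0 * a 1 * a 2 : ℤ) : ℝ)| ≤ K * d ∧
        ∏ i, b i = d ∧ ∀ i, (b i : ℤ) ∣ a i := by
  have hne := Fac_ne hD he
  set Δ : ℕ := (3 * e ^ 2 + A).natAbs with hΔ
  have hΔ0 : 0 < Δ := Int.natAbs_pos.mpr hne
  have hΔ1 : (1 : ℝ) ≤ Δ := by exact_mod_cast hΔ0
  refine ⟨(Δ : ℝ) ^ 3, one_le_pow₀ hΔ1, ?_⟩
  rintro H d r s hd ⟨hc, hs, -, -, w, hw, hdw⟩
  have hd0 : (0 : ℤ) < d := by
    have := hd.ne_zero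
    positivity
  rw [gf_qf he] at hdw
  set F : Fin 3 → ℤ := ![s, r - e * s, Qf A e r s] with hFdef
  have hfr : ∏ i, F i = d * w ^ 2 := by
    rw [← hdw, Fin.prod_univ_three]
    simp only [hFdef, Matrix.cons_val]
    ring
  have hnz : ∀ i, F i ≠ 0 := by
    have h1 : ∏ i, F i ≠ 0 := by
      rw [hfr]
      positivity
    intro i
    exact (Finset.prod_ne_zero_iff.mp h1) i (Finset.mem_univ i)
  choose a y ha hy hay using fun i => sqf_dec _ (hnz i)
  have g01 : Int.gcd s (r - e * s) = 1 := Int.isCoprime_iff_gcd_eq_one.mp (Fac_lin hc e)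
  have g02 : Int.gcd s (Qf A e r s) = 1 := Int.isCoprime_iff_gcd_eq_one.mp (Fac_qf hc)
  have g12 := Fac_gcd1 (A := A) (e := e) hc
  have key := Fac_core 3 Δ hΔ0 F a y d w hay ha (fun i => (hy i).ne') hw hd
    (by
      intro i j hij
      fin_cases i <;> fin_cases j
      · exact absurd rfl hij
      · simp [hFdef, g01]
      · simp [hFdef, g02]
      · simp [hFdef, Int.gcd_comm _ s, g01]
      · exact absurd rfl hij
      · simpa [hFdef] using g12
      · simp [hFdef, Int.gcd_comm _ s, g02]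
      · rw [Int.gcd_comm]
        simpa [hFdef] using g12
      · exact absurd rfl hij)
    hfr
  have hex : ∀ p : ℕ, ∃ i : Fin 3, p ∈ d.primeFactors → (p : ℤ) ∣ a i := by
    intro p
    by_cases hp : p ∈ d.primeFactors
    · obtain ⟨i, hi⟩ := lbl1_dvd hay ha (fun i => (hy i).ne') hw hd hfr (Nat.prime_of_mem_primeFactors hp)
        (Nat.dvd_of_mem_primeFactors hp)
      exact ⟨i, fun _ => hi⟩
    · exact ⟨0, fun h => absurd h hp⟩
  choose j hj using hex
  refine ⟨a, y, fun i => ∏ p ∈ d.primeFactors.filter (fun p => j p = i), p, ha, hy, hay 0, hay 1, hay 2, ?_, ?_, ?_⟩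
  · have h0 : a 0 * a 1 * a 2 = ∏ i, a i := by rw [Fin.prod_univ_three]
    rw [h0, lbl1_abs a]
    have h2 : ((∏ i, (a i).natAbs : ℕ) : ℝ) ≤ ((Δ ^ 3 * d : ℕ) : ℝ) := by exact_mod_cast key
    refine h2.trans (le_of_eq ?_)
    push_cast
    ring
  · rw [Finset.prod_fiberwise]
    exact Nat.prod_primeFactors_of_squarefree hd
  · intro i
    rw [Int.natCast_dvd]
    refine Finset.prod_primes_dvd _ (fun p hp => ?_) (fun p hp => ?_)
    · exact (Nat.prime_of_mem_primeFactors (Finset.mem_filter.1 hp).1).prime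
    · obtain ⟨hp1, hp2⟩ := Finset.mem_filter.1 hp
      rw [← hp2]
      exact Int.natCast_dvd.1 (hj p hp1)

end Pool.Agent.H80.PS
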