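import Pool.Agent.H80.PS.Ct0
import Pool.Agent.H80.PT.Mv
import Pool.Agent.H12.EH.Main

/-!
[H80 PS ZERO]  All curves: almost all twists, primes without roots.

`bad0 A B X ε`: the squarefree `d ≤ X` with `η_d ≤ (d m)^(1/2) X^(-ε)` for a divisor `m` of `d` all of whose prime factors `p` have the property
that `x³ + A x + B` has no root modulo `p`.  The pair of `tw_of_low`: `s = a y²`, `Gf = g z²`, `d = a g` (`lab0d`); a prime `p ∣ m` does not
divide `Gf A B r s` (otherwise `r / s` would be a root modulo `p`), so `m ∣ a`, `Y ≤ (X a)^(1/2) X^(-ε)`.  Dyadic classes `a ~ M`: if `M ≤ X^ε`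
`low_unif`, otherwise `H = C₀ (2 X M) X^(-2ε)`, `g ≤ L = X / M` and `ct0`.
-/

set_option autoImplicit false

namespace Pool.Agent.H80.PS

open Pool.Agent.H12.EH Pool.Agent.H80.PT

/-- The squarefree `d ≤ X` with `η_d ≤ (d m)^(1/2) X^(-ε)` for some divisor `m` of `d` such that `x³ + A x + B` has no root modulo
any prime factor of `m`. -/
def bad0 (A B : ℤ) (X ε : ℝ) : Set ℕ :=
  {d | ∃ m : ℕ, m ∣ d ∧ (∀ p : ℕ, p.Prime → p ∣ m → ∀ t : ℤ, ¬ (p : ℤ) ∣ t ^ 3 + A * t + B) ∧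
    d ∈ low A B X (((d : ℝ) * m) ^ (1 / 2 : ℝ) * X ^ (-ε))}

/-- the `d` with a pair of height at most `C₀ Y²`, where `Y` is small for the label of `s` -/
private def S0 (A B : ℤ) (C₀ X ε : ℝ) : Set ℕ :=
  {d | ∃ (Y : ℝ) (r s : ℤ) (a g y z : ℕ), d ∈ low A B X Y ∧ Tw A B (C₀ * Y ^ 2) d r s ∧
    Squarefree g ∧ 0 < y ∧ 0 < z ∧ s = a * y ^ 2 ∧ Gf A B r s = g * z ^ 2 ∧ a * g = d ∧ 0 < Y ∧
    Y ≤ (X * (a : ℝ)) ^ (1 / 2 : ℝ) * X ^ (-ε)}

private theorem inj {A B : ℤ} (Z : Finset ℕ) {R : ℤ × ℤ → Prop} (h : ∀ d ∈ Z, Squarefree d ∧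
    ∃ p : ℤ × ℤ, R p ∧ ∃ w : ℤ, w ≠ 0 ∧ p.2 * Gf A B p.1 p.2 = d * w ^ 2) :
    ∃ T : Finset (ℤ × ℤ), (∀ p ∈ T, R p) ∧ (Z.card : ℝ) ≤ T.card := by
  classical
  have key : ∀ d ∈ Z, ∃ p : ℤ × ℤ, R p ∧ ∃ w : ℤ, w ≠ 0 ∧ p.2 * Gf A B p.1 p.2 = d * w ^ 2 := fun d hd => (h d hd).2
  choose! f hf w hw0 hw using key
  refine ⟨Z.image f, ?_, ?_⟩
  · intro p hp
    rw [Finset.mem_image] at hp
    obtain ⟨d, hd, rfl⟩ := hp
    exact hf d hd
  · have h1 : (Z.image f).card = Z.card := by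
      apply Finset.card_image_of_injOn
      intro d hd d' hd' hdd
      have hd := Finset.mem_coe.mp hd
      have hd' := Finset.mem_coe.mp hd'
      have g1 := hw d hd
      have g2 := hw d' hd'
      rw [hdd, g2] at g1
      apply sqf_unique (h d hd).1 (h d' hd').1 (Int.natAbs_ne_zero.mpr (hw0 d' hd')) (a := (w d).natAbs)
      have h3 : (d : ℤ) * (w d) ^ 2 = d' * (w d') ^ 2 := g1.symm
      have h4 := congrArg Int.natAbs h3
      rw [Int.natAbs_mul, Int.natAbs_mul, Int.natAbs_pow, Int.natAbs_pow, Int.natAbs_natCast, Int.natAbs_natCast] at h4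
      exact h4
    rw [h1]

private theorem S0_fin (A B : ℤ) (C₀ X ε : ℝ) : (S0 A B C₀ X ε).Finite := by
  refine (Set.finite_Iic ⌊X⌋₊).subset ?_
  rintro d ⟨Y, r, s, a, g, y, z, hlow, -⟩
  exact Nat.le_floor hlow.1

/-- the label -/
private theorem lab0d {A B : ℤ} {H : ℝ} {d : ℕ} {r s : ℤ} (hd : Squarefree d) (h : Tw A B H d r s) :
    ∃ a g y z : ℕ, Squarefree g ∧ 0 < y ∧ 0 < z ∧ s = a * y ^ 2 ∧ Gf A B r s = g * z ^ 2 ∧ a * g = d := by
  obtain ⟨hc, hs, -, -, w, hw, hdw⟩ := h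
  have hd0 : (0 : ℤ) < d := by
    have := hd.ne_zero
    positivity
  have hG : 0 < Gf A B r s := by
    have h1 : 0 < s * Gf A B r s := by
      rw [hdw]
      positivity
    exact (pos_iff_pos_of_mul_pos h1).mp hs
  obtain ⟨a0, y0, ha0, hy0, he0⟩ := sqf_dec s hs.ne'
  obtain ⟨a1, y1, ha1, hy1, he1⟩ := sqf_dec (Gf A B r s) hG.ne'
  have hcop : IsCoprime s (Gf A B r s) := Fac_cop (A := A) (B := B) hc
  have ha0p : 0 < a0 := by
    by_contra hcon
    have h1 : a0 ≤ 0 := not_lt.mp hcon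
    have h2 : a0 * y0 ^ 2 ≤ 0 := mul_nonpos_of_nonpos_of_nonneg h1 (sq_nonneg _)
    rw [← he0] at h2
    exact absurd hs (not_lt.mpr h2)
  have ha1p : 0 < a1 := by
    by_contra hcon
    have h1 : a1 ≤ 0 := not_lt.mp hcon
    have h2 : a1 * y1 ^ 2 ≤ 0 := mul_nonpos_of_nonpos_of_nonneg h1 (sq_nonneg _)
    rw [← he1] at h2
    exact absurd hG (not_lt.mpr h2)
  have hcop2 : IsCoprime a0 a1 := by
    refine (hcop.of_isCoprime_of_dvd_left ?_).of_isCoprime_of_dvd_right ?_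
    · rw [he0]
      exact Dvd.intro _ rfl
    · rw [he1]
      exact Dvd.intro _ rfl
  have hn0 : Squarefree a0.natAbs := Int.squarefree_natAbs.mpr ha0
  have hn1 : Squarefree a1.natAbs := Int.squarefree_natAbs.mpr ha1
  have hcn : Nat.Coprime a0.natAbs a1.natAbs := by
    have := Int.isCoprime_iff_gcd_eq_one.mp hcop2
    exact this
  have hsq : Squarefree (a0.natAbs * a1.natAbs) := (Nat.squarefree_mul hcn).mpr ⟨hn0, hn1⟩
  have hw0 : w.natAbs ≠ 0 := by rwa [Int.natAbs_ne_zero]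
  have hyy : y0.natAbs * y1.natAbs ≠ 0 := by
    have h1 : 0 < y0.natAbs := Int.natAbs_pos.mpr hy0.ne'
    have h2 : 0 < y1.natAbs := Int.natAbs_pos.mpr hy1.ne'
    positivity
  have hprod : d * w.natAbs ^ 2 = (a0.natAbs * a1.natAbs) * (y0.natAbs * y1.natAbs) ^ 2 := by
    have h1 : (d : ℤ) * w ^ 2 = (a0 * a1) * (y0 * y1) ^ 2 := by
      rw [← hdw, he1]
      nth_rewrite 1 [he0]
      ring
    have h2 := congrArg Int.natAbs h1
    rw [Int.natAbs_mul, Int.natAbs_mul, Int.natAbs_mul, Int.natAbs_pow, Int.natAbs_pow, Int.natAbs_natCast,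
      Int.natAbs_mul] at h2
    exact h2
  have hdd : d = a0.natAbs * a1.natAbs := sqf_unique hd hsq hyy hprod
  refine ⟨a0.natAbs, a1.natAbs, y0.natAbs, y1.natAbs, hn1, Int.natAbs_pos.mpr hy0.ne', Int.natAbs_pos.mpr hy1.ne', ?_, ?_,
    hdd.symm⟩
  · rw [Int.natAbs_of_nonneg ha0p.le, Int.natAbs_of_nonneg hy0.le]
    exact he0
  · rw [Int.natAbs_of_nonneg ha1p.le, Int.natAbs_of_nonneg hy1.le]
    exact he1

/-- a prime which divides `Gf A B r s` has a root -/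
private theorem root_of {A B r s : ℤ} (hc : IsCoprime r s) {p : ℕ} (hp : p.Prime) (h : (p : ℤ) ∣ Gf A B r s) :
    ∃ t : ℤ, (p : ℤ) ∣ t ^ 3 + A * t + B := by
  have hpp : Prime (p : ℤ) := Nat.prime_iff_prime_int.mp hp
  unfold Gf at h
  have hs : ¬ (p : ℤ) ∣ s := by
    intro h1
    have h2 : (p : ℤ) ∣ r ^ 3 := by
      have h3 : r ^ 3 = (r ^ 3 + A * r * s ^ 2 + B * s ^ 3) - s * (A * r * s + B * s ^ 2) := by ring
      rw [h3]
      exact dvd_sub h (h1.mul_right _)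
    exact hpp.not_isUnit (hc.isUnit_of_dvd' (hpp.dvd_of_dvd_pow h2) h1)
  obtain ⟨u, v, huv⟩ := (Prime.coprime_iff_not_dvd hpp).mpr hs
  obtain ⟨k, hk⟩ := h
  -- t = r v, v s = 1 - u p
  refine ⟨r * v, v ^ 3 * k + A * (r * v) * (u * (1 + v * s)) + B * (u * (1 + v * s + (v * s) ^ 2)), ?_⟩
  linear_combination (v ^ 3) * hk - (A * (r * v) * (1 + v * s) + B * (1 + v * s + (v * s) ^ 2)) * huv

private theorem lg {K : ℝ} (hK : 1 ≤ K) (ε : ℝ) (hε : 0 < ε) : ∃ C : ℝ, 0 < C ∧ ∀ X : ℝ, 1 ≤ X →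
    ((Nat.log 2 ⌊K * X⌋₊ : ℕ) : ℝ) + 1 ≤ C * X ^ ε := by
  obtain ⟨C, hC, h⟩ := log_pow_le 1 ε hε
  refine ⟨2 * C * K ^ ε, by positivity, ?_⟩
  intro X hX
  have hK0 : 0 < K := by linarith
  have hX0 : 0 < X := by linarith
  have hKX : 1 ≤ K * X := one_le_mul_of_one_le_of_one_le hK hX
  have h1 := h (K * X) hKX
  rw [pow_one, Real.mul_rpow hK0.le hX0.le] at h1
  have hfl : 1 ≤ ⌊K * X⌋₊ := Nat.le_floor (by simpa using hKX)
  have h2 : (2 : ℝ) ^ (Nat.log 2 ⌊K * X⌋₊) ≤ K * X := by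
    have e1 : 2 ^ (Nat.log 2 ⌊K * X⌋₊) ≤ ⌊K * X⌋₊ := Nat.pow_log_le_self 2 (by omega)
    have e2 : ((2 ^ (Nat.log 2 ⌊K * X⌋₊) : ℕ) : ℝ) ≤ (⌊K * X⌋₊ : ℝ) := by exact_mod_cast e1
    push_cast at e2
    exact e2.trans (Nat.floor_le (by linarith))
  have e1 : ((Nat.log 2 ⌊K * X⌋₊ : ℕ) : ℝ) * Real.log 2 ≤ Real.log (K * X) := by
    rw [← Real.log_pow]
    exact Real.log_le_log (by positivity) h2
  have e2 : (1 / 2 : ℝ) ≤ Real.log 2 := by
    have := Real.log_two_gt_d9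
    linarith
  have e3 : ((Nat.log 2 ⌊K * X⌋₊ : ℕ) : ℝ) * (1 / 2) ≤ ((Nat.log 2 ⌊K * X⌋₊ : ℕ) : ℝ) * Real.log 2 :=
    mul_le_mul_of_nonneg_left e2 (Nat.cast_nonneg _)
  calc ((Nat.log 2 ⌊K * X⌋₊ : ℕ) : ℝ) + 1 ≤ 2 * (Real.log (K * X) + 1) := by linarith
    _ ≤ 2 * (C * (K ^ ε * X ^ ε)) := by linarith
    _ = _ := by ring

private theorem Gf_ne {A B : ℤ} {d : ℕ} (hd : Squarefree d) {r s w : ℤ} (hw : w ≠ 0) (h : s * Gf A B r s = d * w ^ 2) :
    Gf A B r s ≠ 0 := by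
  intro h0
  rw [h0, mul_zero] at h
  have h7 : (d : ℤ) ≠ 0 := by exact_mod_cast hd.ne_zero
  exact (mul_ne_zero h7 (pow_ne_zero 2 hw)) h.symm

private theorem card0 {A B : ℤ} (hD : 4 * A ^ 3 + 27 * B ^ 2 ≠ 0) {C₀ : ℝ} (hC₀ : 1 ≤ C₀)
    (ε : ℝ) (hε : 0 < ε) (hε4 : ε ≤ 1 / 4) :
    ∃ C : ℝ, 0 < C ∧ ∀ X : ℝ, 1 ≤ X → ((S0 A B C₀ X ε).ncard : ℝ) ≤ C * X ^ (1 - ε / 8) := by
  classical
  obtain ⟨C1, hC1, h1⟩ := ct0 A B hD (ε / 8) (by positivity)
  obtain ⟨C2, hC2, h2⟩ := lg (le_refl (1 : ℝ)) (ε / 8) (by positivity)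
  obtain ⟨C3, hC3, h3⟩ := low_unif A B hD (ε / 4) (by positivity)
  obtain ⟨Q, hQ⟩ : ∃ Q : ℝ, Q = 2 * C₀ := ⟨_, rfl⟩
  have hQ0 : 0 < Q := by rw [hQ]; positivity
  refine ⟨C2 * (2 * C3 + C1 * Q ^ (ε / 8) * (1 + √Q)), by positivity, ?_⟩
  intro X hX
  have hX0 : 0 < X := by linarith
  have hC₀0 : 0 < C₀ := by linarith
  have hXn : 0 < X ^ (-ε) := Real.rpow_pos_of_pos hX0 _
  obtain ⟨T, hT⟩ : ∃ T : Finset ℕ, T = (S0_fin A B C₀ X ε).toFinset := ⟨_, rfl⟩
  have hcard : ((S0 A B C₀ X ε).ncard : ℝ) = T.card := by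
    rw [hT, Set.ncard_eq_toFinset_card _ (S0_fin A B C₀ X ε)]
  have hmem : ∀ d ∈ T, d ∈ S0 A B C₀ X ε := by
    intro d hd
    rw [hT, Set.Finite.mem_toFinset] at hd
    exact hd
  rw [hcard]
  choose! Y r s a g y z hlow hTw hg hy hz hs hG had hY0 hYb using hmem
  have hapos : ∀ d ∈ T, 1 ≤ a d ∧ (a d : ℝ) ≤ X := by
    intro d hd
    have h5 := had d hd
    have h6 : d ≠ 0 := (hlow d hd).2.1.ne_zero
    have h7 : a d ≠ 0 := by
      intro h0
      rw [h0, zero_mul] at h5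
      exact h6 h5.symm
    refine ⟨Nat.one_le_iff_ne_zero.mpr h7, le_trans ?_ (hlow d hd).1⟩
    have h8 : a d ≤ d := Nat.le_of_dvd (Nat.pos_of_ne_zero h6) (Dvd.intro _ h5)
    exact_mod_cast h8
  have hM0 : 0 ≤ (2 * C3 + C1 * Q ^ (ε / 8) * (1 + √Q)) * X ^ (1 - ε / 4) := by positivity
  have hdy := dya2 T (fun d => a d) ⌊1 * X⌋₊ ((2 * C3 + C1 * Q ^ (ε / 8) * (1 + √Q)) * X ^ (1 - ε / 4)) hM0
    (by
      intro d hd
      exact ⟨(hapos d hd).1, Nat.le_floor (by rw [one_mul]; exact (hapos d hd).2)⟩)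
    (by
      intro k hk T' hT' hk2
      rcases T'.eq_empty_or_nonempty with hTe | ⟨d0, hd0⟩
      · rw [hTe, Finset.card_empty, Nat.cast_zero]
        exact hM0
      obtain ⟨M, hM⟩ : ∃ M : ℝ, M = (2 : ℝ) ^ k := ⟨_, rfl⟩
      have hM1 : 1 ≤ M := by rw [hM]; exact one_le_pow₀ (by norm_num)
      have hMp : 0 < M := by linarith
      have hMa : ∀ d ∈ T', M ≤ (a d : ℝ) ∧ (a d : ℝ) ≤ 2 * M := by
        intro d hd
        rw [hM]
        exact ⟨by exact_mod_cast (hk2 d hd).1, by exact_mod_cast (hk2 d hd).2⟩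
      have hYM : ∀ d ∈ T', Y d ≤ (X * (2 * M)) ^ (1 / 2 : ℝ) * X ^ (-ε) := by
        intro d hd
        have e1 := hYb d (hT' hd)
        refine e1.trans (mul_le_mul_of_nonneg_right ?_ hXn.le)
        refine Real.rpow_le_rpow (by positivity) ?_ (by norm_num)
        exact mul_le_mul_of_nonneg_left (hMa d hd).2 hX0.le
      rcases le_total M (X ^ ε) with hcase | hcase
      · -- small label
        obtain ⟨Y1, hY1⟩ : ∃ Y1 : ℝ, Y1 = max 1 ((X * (2 * M)) ^ (1 / 2 : ℝ) * X ^ (-ε)) := ⟨_, rfl⟩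
        have hsub : ((T' : Finset ℕ) : Set ℕ) ⊆ low A B X Y1 := by
          intro d hd
          have hd := Finset.mem_coe.mp hd
          obtain ⟨q1, q2, P, q3, q4⟩ := hlow d (hT' hd)
          refine ⟨q1, q2, P, q3, q4.trans ((hYM d hd).trans ?_)⟩
          rw [hY1]
          exact le_max_right _ _
        have e1 : (T'.card : ℝ) ≤ ((low A B X Y1).ncard : ℝ) := by
          have := Set.ncard_le_ncard hsub (low_fin A B X Y1)
          rw [Set.ncard_coe_finset] at this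
          exact_mod_cast this
        have e2 : Y1 ≤ 2 * X ^ (1 / 2 - ε / 2) := by
          rw [hY1]
          refine max_le ?_ ?_
          · have : 1 ≤ X ^ (1 / 2 - ε / 2) := Real.one_le_rpow hX (by linarith)
            linarith
          · have m2 : (2 : ℝ) ^ (1 / 2 : ℝ) ≤ 2 := by
              calc (2 : ℝ) ^ (1 / 2 : ℝ) ≤ (2 : ℝ) ^ (1 : ℝ) :=
                    Real.rpow_le_rpow_of_exponent_le (by norm_num) (by norm_num)
                _ = 2 := Real.rpow_one 2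
            have e3 : M ^ (1 / 2 : ℝ) ≤ X ^ (ε * (1 / 2)) := by
              rw [Real.rpow_mul hX0.le]
              exact Real.rpow_le_rpow hMp.le hcase (by norm_num)
            rw [Real.mul_rpow hX0.le (by positivity), Real.mul_rpow (by norm_num) hMp.le]
            have e4 : (2 : ℝ) ^ (1 / 2 : ℝ) * M ^ (1 / 2 : ℝ) ≤ 2 * X ^ (ε * (1 / 2)) :=
              mul_le_mul m2 e3 (by positivity) (by norm_num)
            have e5 : 0 ≤ X ^ (1 / 2 : ℝ) := by positivity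
            calc X ^ (1 / 2 : ℝ) * ((2 : ℝ) ^ (1 / 2 : ℝ) * M ^ (1 / 2 : ℝ)) * X ^ (-ε)
                ≤ X ^ (1 / 2 : ℝ) * (2 * X ^ (ε * (1 / 2))) * X ^ (-ε) :=
                  mul_le_mul_of_nonneg_right (mul_le_mul_of_nonneg_left e4 e5) hXn.le
              _ = 2 * X ^ (1 / 2 + ε * (1 / 2) + (-ε)) := by
                  rw [Real.rpow_add hX0, Real.rpow_add hX0]
                  ring
              _ = 2 * X ^ (1 / 2 - ε / 2) := by
                  congr 2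
                  ring
        have e6 := h3 X Y1 hX (by rw [hY1]; exact le_max_left _ _)
        refine e1.trans (e6.trans ?_)
        calc C3 * X ^ (1 / 2 + ε / 4) * Y1 ≤ C3 * X ^ (1 / 2 + ε / 4) * (2 * X ^ (1 / 2 - ε / 2)) :=
              mul_le_mul_of_nonneg_left e2 (by positivity)
          _ = 2 * C3 * X ^ (1 / 2 + ε / 4 + (1 / 2 - ε / 2)) := by
              rw [Real.rpow_add hX0 (1 / 2 + ε / 4)]
              ring
          _ = 2 * C3 * X ^ (1 - ε / 4) := by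
              congr 2
              ring
          _ ≤ _ := by
              have : 0 ≤ C1 * Q ^ (ε / 8) * (1 + √Q) * X ^ (1 - ε / 4) := by positivity
              linarith
      · -- large label
        obtain ⟨H, hH⟩ : ∃ H : ℝ, H = C₀ * (X * (2 * M) * X ^ (-(2 * ε))) := ⟨_, rfl⟩
        obtain ⟨L, hL⟩ : ∃ L : ℝ, L = X / M := ⟨_, rfl⟩
        have hYH : ∀ d ∈ T', C₀ * Y d ^ 2 ≤ H := by
          intro d hd
          rw [hH]
          refine mul_le_mul_of_nonneg_left ?_ hC₀0.le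
          calc Y d ^ 2 ≤ ((X * (2 * M)) ^ (1 / 2 : ℝ) * X ^ (-ε)) ^ 2 :=
                pow_le_pow_left₀ (hY0 d (hT' hd)).le (hYM d hd) 2
            _ = X * (2 * M) * X ^ (-(2 * ε)) := by
              rw [mul_pow, ← Real.rpow_natCast, ← Real.rpow_natCast, ← Real.rpow_mul (by positivity),
                ← Real.rpow_mul hX0.le]
              have g1 : (1 / 2 : ℝ) * ((2 : ℕ) : ℝ) = 1 := by norm_num
              have g2 : -ε * ((2 : ℕ) : ℝ) = -(2 * ε) := by push_cast; ring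
              rw [g1, g2, Real.rpow_one]
        have hH1 : 1 ≤ H := by
          obtain ⟨t1, t2, t3, t4, -⟩ := hTw d0 (hT' hd0)
          have e2 : (1 : ℝ) ≤ (s d0 : ℝ) := by exact_mod_cast t2
          exact e2.trans (t4.trans (hYH d0 hd0))
        have hL1 : 1 ≤ L := by
          rw [hL, le_div_iff₀ hMp, one_mul]
          exact (hMa d0 hd0).1.trans (hapos d0 (hT' hd0)).2
        obtain ⟨TT, hTT, hTc⟩ := inj (A := A) (B := B) T' (R := fun p => IsCoprime p.1 p.2 ∧ 0 < p.2 ∧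
          |(p.1 : ℝ)| ≤ H ∧ (p.2 : ℝ) ≤ H ∧ Gf A B p.1 p.2 ≠ 0 ∧
          ∃ g z : ℕ, Squarefree g ∧ 0 < z ∧ Gf A B p.1 p.2 = g * z ^ 2 ∧ (g : ℝ) ≤ L) (by
            intro d hd
            have hdT := hT' hd
            obtain ⟨t1, t2, t3, t4, w, hw, t5⟩ := hTw d hdT
            have hsq : Squarefree d := (hlow d hdT).2.1
            have hHd := hYH d hd
            refine ⟨hsq, (r d, s d), ⟨t1, t2, t3.trans hHd, t4.trans hHd, Gf_ne hsq hw t5, g d, z d, hg d hdT, hz d hdT,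
              hG d hdT, ?_⟩, w, hw, t5⟩
            rw [hL, le_div_iff₀ hMp]
            have e1 : (a d : ℝ) * (g d : ℝ) = (d : ℝ) := by exact_mod_cast had d hdT
            calc (g d : ℝ) * M ≤ (g d : ℝ) * (a d : ℝ) := mul_le_mul_of_nonneg_left (hMa d hd).1 (Nat.cast_nonneg _)
              _ = (d : ℝ) := by rw [mul_comm]; exact e1
              _ ≤ X := (hlow d hdT).1)
        have h4 := h1 H L hH1 hL1 TT hTT
        refine hTc.trans (h4.trans ?_)
        have g1 : H * L = Q * (X ^ (1 - ε)) ^ 2 := by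
          have e1 : (X ^ (1 - ε)) ^ 2 = X ^ 2 * X ^ (-(2 * ε)) := by
            rw [← Real.rpow_natCast, ← Real.rpow_mul hX0.le, ← Real.rpow_natCast X 2, ← Real.rpow_add hX0]
            congr 1
            push_cast
            ring
          rw [e1, hH, hL, hQ]
          field_simp
        have hXe : 0 < X ^ (1 - ε) := Real.rpow_pos_of_pos hX0 _
        have g2 : √(H * L) = √Q * X ^ (1 - ε) := by
          rw [g1, Real.sqrt_mul hQ0.le, Real.sqrt_sq hXe.le]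
        have g3 : L ≤ X ^ (1 - ε) := by
          rw [hL, div_le_iff₀ hMp]
          have e1 : X = X ^ (1 - ε) * X ^ ε := by
            rw [← Real.rpow_add hX0]
            ring_nf
            rw [Real.rpow_one]
          calc X = X ^ (1 - ε) * X ^ ε := e1
            _ ≤ X ^ (1 - ε) * M := mul_le_mul_of_nonneg_left hcase hXe.le
        have g4 : (H * L) ^ (ε / 8) ≤ Q ^ (ε / 8) * X ^ (ε / 4) := by
          have e1 : H * L ≤ Q * X ^ 2 := by
            rw [g1]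
            refine mul_le_mul_of_nonneg_left ?_ hQ0.le
            refine pow_le_pow_left₀ hXe.le ?_ 2
            calc X ^ (1 - ε) ≤ X ^ (1 : ℝ) := Real.rpow_le_rpow_of_exponent_le hX (by linarith)
              _ = X := Real.rpow_one X
          refine (Real.rpow_le_rpow (by positivity) e1 (by positivity)).trans (le_of_eq ?_)
          rw [Real.mul_rpow hQ0.le (by positivity), ← Real.rpow_natCast X 2, ← Real.rpow_mul hX0.le]
          congr 2
          push_cast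
          ring
        have g5 : 0 ≤ L + √(H * L) := by positivity
        calc C1 * (H * L) ^ (ε / 8) * (L + √(H * L))
            ≤ C1 * (Q ^ (ε / 8) * X ^ (ε / 4)) * ((1 + √Q) * X ^ (1 - ε)) := by
              refine mul_le_mul (mul_le_mul_of_nonneg_left g4 hC1.le) ?_ g5 (by positivity)
              rw [g2]
              linarith
          _ = C1 * Q ^ (ε / 8) * (1 + √Q) * X ^ (ε / 4 + (1 - ε)) := by
              rw [Real.rpow_add hX0 (ε / 4)]
              ring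
          _ ≤ C1 * Q ^ (ε / 8) * (1 + √Q) * X ^ (1 - ε / 4) := by
              refine mul_le_mul_of_nonneg_left ?_ (by positivity)
              exact Real.rpow_le_rpow_of_exponent_le hX (by linarith)
          _ ≤ _ := by
              have : 0 ≤ 2 * C3 * X ^ (1 - ε / 4) := by positivity
              linarith)
  refine hdy.trans ?_
  calc ((Nat.log 2 ⌊1 * X⌋₊ : ℕ) + 1 : ℝ) * ((2 * C3 + C1 * Q ^ (ε / 8) * (1 + √Q)) * X ^ (1 - ε / 4))
      ≤ (C2 * X ^ (ε / 8)) * ((2 * C3 + C1 * Q ^ (ε / 8) * (1 + √Q)) * X ^ (1 - ε / 4)) :=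
        mul_le_mul_of_nonneg_right (h2 X hX) hM0
    _ = C2 * (2 * C3 + C1 * Q ^ (ε / 8) * (1 + √Q)) * X ^ (ε / 8 + (1 - ε / 4)) := by
        rw [Real.rpow_add hX0 (ε / 8)]
        ring
    _ = C2 * (2 * C3 + C1 * Q ^ (ε / 8) * (1 + √Q)) * X ^ (1 - ε / 8) := by
        congr 2
        ring

/-- All curves: for almost all squarefree `d`, `η_d > (d m)^(1/2) X^(-ε)`, `m` the part of `d` of the primes without roots. -/
theorem zero (A B : ℤ) (hD : 4 * A ^ 3 + 27 * B ^ 2 ≠ 0) (ε : ℝ) (hε : 0 < ε) :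
    ∃ δ C : ℝ, 0 < δ ∧ 0 < C ∧ ∀ X : ℝ, 1 ≤ X → ((bad0 A B X ε).ncard : ℝ) ≤ C * X ^ (1 - δ) := by
  classical
  obtain ⟨C₀, hC₀, htw⟩ := tw_of_low A B hD
  obtain ⟨η, hη⟩ : ∃ η : ℝ, η = min ε (1 / 4) := ⟨_, rfl⟩
  have hη0 : 0 < η := by rw [hη]; exact lt_min hε (by norm_num)
  have hη4 : η ≤ 1 / 4 := by rw [hη]; exact min_le_right _ _
  have hηε : η ≤ ε := by rw [hη]; exact min_le_left _ _
  obtain ⟨C, hC, h1⟩ := card0 hD hC₀ η hη0 hη4
  refine ⟨η / 8, C, by positivity, hC, ?_⟩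
  intro X hX
  have hX0 : 0 < X := by linarith
  have hsub : bad0 A B X ε ⊆ S0 A B C₀ X η := by
    rintro d ⟨m, hmd, hm, hlow⟩
    have hd0 : d ≠ 0 := hlow.2.1.ne_zero
    have hm0 : m ≠ 0 := fun h => hd0 (Nat.eq_zero_of_zero_dvd (h ▸ hmd))
    have hY0 : 0 < ((d : ℝ) * m) ^ (1 / 2 : ℝ) * X ^ (-ε) := by
      have e1 : (0 : ℝ) < (d : ℝ) := by exact_mod_cast Nat.pos_of_ne_zero hd0
      have e2 : (0 : ℝ) < (m : ℝ) := by exact_mod_cast Nat.pos_of_ne_zero hm0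
      positivity
    obtain ⟨r, s, ht⟩ := htw X _ hY0 d hlow
    obtain ⟨a, g, y, z, g1, g2, g3, g4, g5, g6⟩ := lab0d hlow.2.1 ht
    have hdX : (d : ℝ) ≤ X := hlow.1
    have hcop : Nat.Coprime m g := by
      refine Nat.coprime_of_dvd ?_
      intro p hp hpm hpg
      have e1 : (p : ℤ) ∣ Gf A B r s := by
        rw [g5]
        exact (Int.natCast_dvd_natCast.mpr hpg).mul_right _
      obtain ⟨t, ht⟩ := root_of ht.1 hp e1
      exact hm p hp hpm t ht
    have hma : m ∣ a := hcop.dvd_of_dvd_mul_right (g6 ▸ hmd)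
    have ha0 : a ≠ 0 := by
      rintro rfl
      exact hd0 (by rw [← g6, zero_mul])
    have hmaR : (m : ℝ) ≤ (a : ℝ) := by exact_mod_cast Nat.le_of_dvd (Nat.pos_of_ne_zero ha0) hma
    have hXn : X ^ (-ε) ≤ X ^ (-η) := Real.rpow_le_rpow_of_exponent_le hX (by linarith)
    have hXp : 0 ≤ X ^ (-ε) := by positivity
    refine ⟨_, r, s, a, g, y, z, hlow, ht, g1, g2, g3, g4, g5, g6, hY0, ?_⟩
    refine mul_le_mul ?_ hXn hXp (by positivity)
    exact Real.rpow_le_rpow (by positivity) (mul_le_mul hdX hmaR (Nat.cast_nonneg _) hX0.le) (by norm_num)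
  refine le_trans ?_ (h1 X hX)
  exact_mod_cast Set.ncard_le_ncard hsub (S0_fin A B C₀ X η)

end Pool.Agent.H80.PS
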